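import Pool.Agent.Run7.h583.K64.Sem

/-! The frames: values of the steps in terms of set functions. -/

set_option autoImplicit false
set_option maxRecDepth 100000
open Finset Equiv

namespace Pool.Agent.Run7.h583.K64

noncomputable section

open Pool.Agent.N443 (mkN mkN_div mkN_mod bt_mkN codeN act okS3 tot3 fl3 Stp Grp Psi pr Inv7)
open Pool.Agent.Y435.T7 (bt)

/-- quadruples of the first six positions -/
def CQ : List (Finset (Fin 7)) := [{0, 1, 2, 3}, {1, 2, 3, 4}, {0, 2, 3, 4}, {0, 1, 3, 4}, {0, 1, 2, 4}, {1, 2, 3, 5}, {0, 2, 3, 5}, {0, 1, 3, 5}, {0, 1, 2, 5}, {2, 3, 4, 5}, {1, 3, 4, 5}, {0, 3, 4, 5}, {1, 2, 4, 5}, {0, 2, 4, 5}, {0, 1, 4, 5}]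
/-- quadruples with the last position -/
def LT : List (Finset (Fin 7)) := [{2, 3, 4, 6}, {1, 3, 4, 6}, {0, 3, 4, 6}, {1, 2, 4, 6}, {2, 3, 5, 6}, {1, 3, 5, 6}, {0, 3, 5, 6}, {1, 2, 5, 6}, {0, 2, 5, 6}, {0, 1, 5, 6}, {0, 2, 4, 6}, {0, 1, 4, 6}, {1, 2, 3, 6}, {0, 2, 3, 6}, {0, 1, 3, 6}, {0, 1, 2, 6}, {0, 4, 5, 6}, {1, 4, 5, 6}, {2, 4, 5, 6}, {3, 4, 5, 6}]
/-- quadruples with the last position, order of the final index -/
def LF : List (Finset (Fin 7)) := [{1, 3, 4, 6}, {1, 2, 3, 6}, {1, 3, 5, 6}, {1, 2, 4, 6}, {0, 3, 4, 6}, {0, 2, 3, 6}, {0, 3, 5, 6}, {0, 2, 4, 6}, {0, 4, 5, 6}, {0, 2, 5, 6}, {1, 4, 5, 6}, {1, 2, 5, 6}, {2, 3, 4, 6}, {3, 4, 5, 6}, {2, 3, 5, 6}, {2, 4, 5, 6}, {0, 1, 5, 6}, {0, 1, 2, 6}, {0, 1, 4, 6}, {0, 1, 3, 6}]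
/-- quadruples of the roots -/
def RM : List (Finset (Fin 7)) := [{1, 2, 3, 4}, {0, 2, 3, 4}, {0, 1, 3, 4}, {0, 1, 2, 4}, {0, 1, 2, 3}]
/-- quadruples with the position 5 -/
def RA : List (Finset (Fin 7)) := [{2, 3, 4, 5}, {1, 3, 4, 5}, {0, 3, 4, 5}, {1, 2, 4, 5}, {0, 2, 4, 5}, {0, 1, 4, 5}, {1, 2, 3, 5}, {0, 2, 3, 5}, {0, 1, 3, 5}, {0, 1, 2, 5}]
/-- quadruples with the position 6 -/
def RB : List (Finset (Fin 7)) := [{2, 3, 4, 6}, {1, 3, 4, 6}, {0, 3, 4, 6}, {1, 2, 4, 6}, {0, 2, 4, 6}, {0, 1, 4, 6}, {1, 2, 3, 6}, {0, 2, 3, 6}, {0, 1, 3, 6}, {0, 1, 2, 6}]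

/-- positions of the first frame -/
def al0 : Perm (Fin 7) := ⟨![0, 1, 2, 3, 6, 4, 5], ![0, 1, 2, 3, 5, 6, 4], by decide, by decide⟩
/-- step 0 -/
def p0 : Perm (Fin 7) := ⟨![5, 1, 4, 3, 2, 0, 6], ![5, 1, 4, 3, 2, 0, 6], by decide, by decide⟩
/-- step 1 -/
def p1 : Perm (Fin 7) := ⟨![5, 2, 1, 3, 4, 0, 6], ![5, 2, 1, 3, 4, 0, 6], by decide, by decide⟩
/-- step 2 -/
def p2 : Perm (Fin 7) := ⟨![5, 1, 0, 3, 2, 4, 6], ![2, 1, 4, 3, 5, 0, 6], by decide, by decide⟩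
/-- step 3 -/
def p3 : Perm (Fin 7) := ⟨![5, 2, 4, 1, 3, 0, 6], ![5, 3, 1, 4, 2, 0, 6], by decide, by decide⟩
/-- step 4 -/
def p4 : Perm (Fin 7) := ⟨![1, 2, 4, 3, 5, 0, 6], ![5, 0, 1, 3, 2, 4, 6], by decide, by decide⟩
/-- step 5 -/
def p5 : Perm (Fin 7) := ⟨![0, 2, 4, 1, 3, 5, 6], ![0, 3, 1, 4, 2, 5, 6], by decide, by decide⟩
/-- step 6 -/
def p6 : Perm (Fin 7) := ⟨![5, 0, 4, 3, 2, 1, 6], ![1, 5, 4, 3, 2, 0, 6], by decide, by decide⟩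
/-- step 7 -/
def p7 : Perm (Fin 7) := ⟨![0, 2, 4, 3, 1, 5, 6], ![0, 4, 1, 3, 2, 5, 6], by decide, by decide⟩
/-- step 8 -/
def p8 : Perm (Fin 7) := ⟨![0, 1, 4, 3, 2, 5, 6], ![0, 1, 4, 3, 2, 5, 6], by decide, by decide⟩
/-- step 9 -/
def p9 : Perm (Fin 7) := ⟨![5, 2, 4, 0, 1, 3, 6], ![3, 4, 1, 5, 2, 0, 6], by decide, by decide⟩
/-- step 10 -/
def p10 : Perm (Fin 7) := ⟨![5, 2, 0, 3, 1, 4, 6], ![2, 4, 1, 3, 5, 0, 6], by decide, by decide⟩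
/-- step 11 -/
def p11 : Perm (Fin 7) := ⟨![5, 2, 0, 1, 3, 4, 6], ![2, 3, 1, 4, 5, 0, 6], by decide, by decide⟩
/-- step 12 -/
def p12 : Perm (Fin 7) := ⟨![5, 2, 4, 3, 1, 0, 6], ![5, 4, 1, 3, 2, 0, 6], by decide, by decide⟩
/-- step 13 -/
def p13 : Perm (Fin 7) := ⟨![5, 0, 4, 1, 3, 2, 6], ![1, 3, 5, 4, 2, 0, 6], by decide, by decide⟩
/-- step 14 -/
def p14 : Perm (Fin 7) := ⟨![1, 2, 0, 3, 5, 4, 6], ![2, 0, 1, 3, 5, 4, 6], by decide, by decide⟩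

/-- the value of a set function -/
def GG (g : Finset (Fin 7) → ℕ) : ℕ := F5 (codeN 5 RM g) (codeN 10 RA g) (codeN 10 RB g)

theorem dv {n : ℕ} {b : ℕ → ℕ} (hb : ∀ j, b j ≤ 1) (k r : ℕ) (h : k + r ≤ n) : mkN n b / 2 ^ k % 2 ^ r = mkN r (fun j => b (j + k)) := by
  rw [mkN_div (by omega) hb, mkN_mod (by omega) fun j => hb _]

theorem xi_mk {b : ℕ → ℕ} (hb : ∀ j, b j ≤ 1) : xi (mkN 16 b) = b 0 + 2 * b 1 + 4 * b 2 + 8 * b 3 + 16 * b 10 + 32 * b 11 := by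
  have h1 : mkN 16 b % 16 = mkN 4 b := mkN_mod (k := 4) (by norm_num) hb
  have h2 : mkN 16 b / 1024 % 4 = mkN 2 (fun j => b (j + 10)) := dv hb 10 2 (by norm_num)
  unfold xi
  rw [h1, h2]
  simp only [mkN, sum_range_succ, sum_range_zero]
  norm_num
  ring
theorem yi_mk {b : ℕ → ℕ} (hb : ∀ j, b j ≤ 1) : yi (mkN 16 b) = b 4 + 2 * b 5 + 4 * b 6 + 8 * b 7 + 16 * b 8 + 32 * b 9 := by
  have h2 : mkN 16 b / 16 % 64 = mkN 6 (fun j => b (j + 4)) := dv hb 4 6 (by norm_num)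
  unfold yi
  rw [h2]
  simp only [mkN, sum_range_succ, sum_range_zero]
  norm_num
  ring
theorem m_mk {b : ℕ → ℕ} (hb : ∀ j, b j ≤ 1) : mkN 16 b / 4096 = b 12 + 2 * b 13 + 4 * b 14 + 8 * b 15 := by
  have h2 : mkN 16 b / 4096 = mkN 4 (fun j => b (j + 12)) := mkN_div (k := 12) (by norm_num) hb
  rw [h2]
  simp only [mkN, sum_range_succ, sum_range_zero]
  norm_num
  ring
theorem e_mk {b : ℕ → ℕ} (hb : ∀ j, b j ≤ 1) : mkN 15 b / 2 % 16 = b 1 + 2 * b 2 + 4 * b 3 + 8 * b 4 := by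
  have h2 : mkN 15 b / 2 % 16 = mkN 4 (fun j => b (j + 1)) := dv hb 1 4 (by norm_num)
  rw [h2]
  simp only [mkN, sum_range_succ, sum_range_zero]
  norm_num
  ring
theorem f_mk {b : ℕ → ℕ} (hb : ∀ j, b j ≤ 1) : mkN 15 b / 32 % 16 = b 5 + 2 * b 6 + 4 * b 7 + 8 * b 8 := by
  have h2 : mkN 15 b / 32 % 16 = mkN 4 (fun j => b (j + 5)) := dv hb 5 4 (by norm_num)
  rw [h2]
  simp only [mkN, sum_range_succ, sum_range_zero]
  norm_num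
  ring
theorem p_mk {b : ℕ → ℕ} (hb : ∀ j, b j ≤ 1) : mkN 15 b / 512 % 64 = b 9 + 2 * b 10 + 4 * b 11 + 8 * b 12 + 16 * b 13 + 32 * b 14 := by
  have h2 : mkN 15 b / 512 % 64 = mkN 6 (fun j => b (j + 9)) := dv hb 9 6 (by norm_num)
  rw [h2]
  simp only [mkN, sum_range_succ, sum_range_zero]
  norm_num
  ring

theorem RM_g (g : Finset (Fin 7) → ℕ) : codeN 5 RM g = g {1, 2, 3, 4} + 2 * g {0, 2, 3, 4} + 4 * g {0, 1, 3, 4} + 8 * g {0, 1, 2, 4} + 16 * g {0, 1, 2, 3} := by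
  simp only [codeN, mkN, sum_range_succ, sum_range_zero, RM, List.getD_cons_zero, List.getD_cons_succ]
  ring
theorem RM_a (g : Finset (Fin 7) → ℕ) : codeN 5 RM (act al0 g) = g {1, 2, 3, 6} + 2 * g {0, 2, 3, 6} + 4 * g {0, 1, 3, 6} + 8 * g {0, 1, 2, 6} + 16 * g {0, 1, 2, 3} := by
  have h : ∀ j < 5, (RM.getD j ∅).image al0 = ([{1, 2, 3, 6}, {0, 2, 3, 6}, {0, 1, 3, 6}, {0, 1, 2, 6}, {0, 1, 2, 3}] : List (Finset (Fin 7))).getD j ∅ := by decide +kernel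
  have h2 : codeN 5 RM (act al0 g) = mkN 5 (fun j => g (([{1, 2, 3, 6}, {0, 2, 3, 6}, {0, 1, 3, 6}, {0, 1, 2, 6}, {0, 1, 2, 3}] : List (Finset (Fin 7))).getD j ∅)) := by
    unfold codeN
    exact Pool.Agent.N443.mkN_congr fun j hj => by rw [← h j hj]; rfl
  rw [h2]
  simp only [mkN, sum_range_succ, sum_range_zero, List.getD_cons_zero, List.getD_cons_succ]
  ring
theorem RA_g (g : Finset (Fin 7) → ℕ) : codeN 10 RA g = g {2, 3, 4, 5} + 2 * g {1, 3, 4, 5} + 4 * g {0, 3, 4, 5} + 8 * g {1, 2, 4, 5} + 16 * g {0, 2, 4, 5} + 32 * g {0, 1, 4, 5} + 64 * g {1, 2, 3, 5} + 128 * g {0, 2, 3, 5} + 256 * g {0, 1, 3, 5} + 512 * g {0, 1, 2, 5} := by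
  simp only [codeN, mkN, sum_range_succ, sum_range_zero, RA, List.getD_cons_zero, List.getD_cons_succ]
  ring
theorem RA_a (g : Finset (Fin 7) → ℕ) : codeN 10 RA (act al0 g) = g {2, 3, 4, 6} + 2 * g {1, 3, 4, 6} + 4 * g {0, 3, 4, 6} + 8 * g {1, 2, 4, 6} + 16 * g {0, 2, 4, 6} + 32 * g {0, 1, 4, 6} + 64 * g {1, 2, 3, 4} + 128 * g {0, 2, 3, 4} + 256 * g {0, 1, 3, 4} + 512 * g {0, 1, 2, 4} := by
  have h : ∀ j < 10, (RA.getD j ∅).image al0 = ([{2, 3, 4, 6}, {1, 3, 4, 6}, {0, 3, 4, 6}, {1, 2, 4, 6}, {0, 2, 4, 6}, {0, 1, 4, 6}, {1, 2, 3, 4}, {0, 2, 3, 4}, {0, 1, 3, 4}, {0, 1, 2, 4}] : List (Finset (Fin 7))).getD j ∅ := by decide +kernel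
  have h2 : codeN 10 RA (act al0 g) = mkN 10 (fun j => g (([{2, 3, 4, 6}, {1, 3, 4, 6}, {0, 3, 4, 6}, {1, 2, 4, 6}, {0, 2, 4, 6}, {0, 1, 4, 6}, {1, 2, 3, 4}, {0, 2, 3, 4}, {0, 1, 3, 4}, {0, 1, 2, 4}] : List (Finset (Fin 7))).getD j ∅)) := by
    unfold codeN
    exact Pool.Agent.N443.mkN_congr fun j hj => by rw [← h j hj]; rfl
  rw [h2]
  simp only [mkN, sum_range_succ, sum_range_zero, List.getD_cons_zero, List.getD_cons_succ]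
  ring
theorem RB_g (g : Finset (Fin 7) → ℕ) : codeN 10 RB g = g {2, 3, 4, 6} + 2 * g {1, 3, 4, 6} + 4 * g {0, 3, 4, 6} + 8 * g {1, 2, 4, 6} + 16 * g {0, 2, 4, 6} + 32 * g {0, 1, 4, 6} + 64 * g {1, 2, 3, 6} + 128 * g {0, 2, 3, 6} + 256 * g {0, 1, 3, 6} + 512 * g {0, 1, 2, 6} := by
  simp only [codeN, mkN, sum_range_succ, sum_range_zero, RB, List.getD_cons_zero, List.getD_cons_succ]
  ring
theorem RB_a (g : Finset (Fin 7) → ℕ) : codeN 10 RB (act al0 g) = g {2, 3, 5, 6} + 2 * g {1, 3, 5, 6} + 4 * g {0, 3, 5, 6} + 8 * g {1, 2, 5, 6} + 16 * g {0, 2, 5, 6} + 32 * g {0, 1, 5, 6} + 64 * g {1, 2, 3, 5} + 128 * g {0, 2, 3, 5} + 256 * g {0, 1, 3, 5} + 512 * g {0, 1, 2, 5} := by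
  have h : ∀ j < 10, (RB.getD j ∅).image al0 = ([{2, 3, 5, 6}, {1, 3, 5, 6}, {0, 3, 5, 6}, {1, 2, 5, 6}, {0, 2, 5, 6}, {0, 1, 5, 6}, {1, 2, 3, 5}, {0, 2, 3, 5}, {0, 1, 3, 5}, {0, 1, 2, 5}] : List (Finset (Fin 7))).getD j ∅ := by decide +kernel
  have h2 : codeN 10 RB (act al0 g) = mkN 10 (fun j => g (([{2, 3, 5, 6}, {1, 3, 5, 6}, {0, 3, 5, 6}, {1, 2, 5, 6}, {0, 2, 5, 6}, {0, 1, 5, 6}, {1, 2, 3, 5}, {0, 2, 3, 5}, {0, 1, 3, 5}, {0, 1, 2, 5}] : List (Finset (Fin 7))).getD j ∅)) := by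
    unfold codeN
    exact Pool.Agent.N443.mkN_congr fun j hj => by rw [← h j hj]; rfl
  rw [h2]
  simp only [mkN, sum_range_succ, sum_range_zero, List.getD_cons_zero, List.getD_cons_succ]
  ring

theorem Bv_eq {g : Finset (Fin 7) → ℕ} (hg : ∀ Q, g Q ≤ 1) (fl : ℕ) : Bv fl (codeN 15 CQ g) (codeN 16 LT g)
    = GG (act al0 g) + (if fl = 0 then 0 else GG g) := by
  unfold Bv GG
  have e1 : codeN 16 LT g / 4096 + 16 * bt 0 (codeN 15 CQ g) = codeN 5 RM (act al0 g) := by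
    rw [RM_a]; unfold codeN
    rw [m_mk fun j => hg _, bt_mkN (by norm_num) fun j => hg _]
    simp only [CQ, LT, List.getD_cons_zero, List.getD_cons_succ]
  have e2 : xi (codeN 16 LT g) + 64 * (codeN 15 CQ g / 2 % 16) = codeN 10 RA (act al0 g) := by
    rw [RA_a]; unfold codeN
    rw [xi_mk fun j => hg _, e_mk fun j => hg _]
    simp only [CQ, LT, List.getD_cons_zero, List.getD_cons_succ]
    ring
  have e3 : yi (codeN 16 LT g) + 64 * (codeN 15 CQ g / 32 % 16) = codeN 10 RB (act al0 g) := by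
    rw [RB_a]; unfold codeN
    rw [yi_mk fun j => hg _, f_mk fun j => hg _]
    simp only [CQ, LT, List.getD_cons_zero, List.getD_cons_succ]
    ring
  have e4 : codeN 15 CQ g / 2 % 16 + 16 * bt 0 (codeN 15 CQ g) = codeN 5 RM g := by
    rw [RM_g]; unfold codeN
    rw [e_mk fun j => hg _, bt_mkN (by norm_num) fun j => hg _]
    simp only [CQ, List.getD_cons_zero, List.getD_cons_succ]
  have e5 : codeN 15 CQ g / 512 % 64 + 64 * (codeN 15 CQ g / 32 % 16) = codeN 10 RA g := by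
    rw [RA_g]; unfold codeN
    rw [p_mk fun j => hg _, f_mk fun j => hg _]
    simp only [CQ, List.getD_cons_zero, List.getD_cons_succ]
    ring
  have e6 : xi (codeN 16 LT g) + 64 * (codeN 16 LT g / 4096) = codeN 10 RB g := by
    rw [RB_g]; unfold codeN
    rw [xi_mk fun j => hg _, m_mk fun j => hg _]
    simp only [LT, List.getD_cons_zero, List.getD_cons_succ]
    ring
  rw [e1, e2, e3, e4, e5, e6]

def f0 : Stp := (0, [10, 1, 9, 5, 12, 3, 11, 7, 14, 2, 0, 6, 4, 13, 8],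
  [(16, 0, 12), (16, 2, 14), (16, 5, 7), (16, 10, 15), (16, 16, 9), (17, 0, 0), (18, 18, 5), (19, 19, 7)])
def f1 : Stp := (0, [5, 1, 10, 9, 12, 0, 7, 6, 8, 3, 2, 11, 4, 14, 13],
  [(16, 1, 12), (16, 2, 13), (16, 4, 7), (16, 11, 15), (16, 16, 8), (17, 17, 4), (18, 0, 0), (19, 19, 7)])
def f2 : Stp := (0, [7, 0, 6, 5, 8, 3, 11, 10, 14, 2, 1, 9, 4, 13, 12],
  [(16, 0, 5), (16, 2, 14), (16, 6, 13), (16, 7, 12), (16, 9, 10), (16, 16, 15), (17, 17, 3), (18, 18, 12), (19, 19, 7)])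
def f3 : Stp := (0, [12, 1, 10, 5, 9, 4, 14, 8, 13, 3, 0, 7, 2, 11, 6],
  [(16, 3, 12), (16, 10, 13), (16, 11, 14), (16, 16, 6), (17, 17, 5), (18, 18, 4), (19, 19, 6)])
def f4 : Stp := (0, [1, 9, 10, 5, 12, 2, 3, 0, 4, 11, 6, 7, 13, 14, 8],
  [(16, 0, 13), (16, 1, 14), (16, 3, 15), (16, 0, 0), (17, 17, 9), (18, 18, 8), (19, 19, 6)])
def f5 : Stp := (0, [4, 1, 3, 0, 2, 12, 14, 8, 13, 10, 5, 7, 9, 11, 6],
  [(16, 2, 6), (16, 3, 12), (16, 4, 10), (16, 5, 11), (16, 7, 15), (16, 16, 2), (17, 17, 14), (18, 18, 13), (19, 19, 6)])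
def f6 : Stp := (1, [11, 2, 9, 6, 13, 3, 10, 7, 14, 1, 0, 5, 4, 12, 8],
  [(16, 0, 12), (16, 0, 4), (16, 1, 5), (16, 1, 11), (16, 1, 9), (16, 2, 14), (16, 2, 6), (16, 3, 7), (16, 8, 10), (16, 8, 15), (16, 16, 1), (17, 0, 0), (18, 18, 3), (19, 19, 11)])
def f7 : Stp := (1, [2, 1, 3, 0, 4, 9, 11, 6, 13, 10, 5, 7, 12, 14, 8],
  [(16, 2, 11), (16, 4, 13), (16, 5, 14), (16, 7, 15), (16, 0, 0), (17, 17, 2), (18, 18, 10), (19, 19, 11)])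
def f8 : Stp := (0, [3, 1, 2, 0, 4, 10, 11, 7, 14, 9, 5, 6, 12, 13, 8],
  [(16, 0, 12), (16, 2, 5), (16, 4, 13), (16, 7, 10), (16, 11, 14), (16, 16, 9), (17, 17, 14), (18, 18, 15), (19, 19, 11)])
def f9 : Stp := (1, [13, 4, 14, 8, 12, 2, 11, 6, 9, 3, 0, 7, 1, 10, 5],
  [(16, 7, 12), (16, 8, 13), (16, 9, 14), (16, 16, 2), (17, 17, 1), (18, 18, 0), (19, 19, 0)])
def f10 : Stp := (1, [6, 0, 7, 5, 8, 2, 11, 9, 13, 3, 1, 10, 4, 14, 12],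
  [(16, 5, 12), (16, 6, 13), (16, 9, 15), (16, 16, 10), (17, 17, 3), (18, 0, 0), (19, 19, 0)])
def f11 : Stp := (0, [8, 0, 7, 5, 6, 4, 14, 12, 13, 3, 1, 10, 2, 11, 9],
  [(16, 3, 5), (16, 6, 10), (16, 9, 15), (16, 11, 14), (16, 16, 13), (17, 17, 12), (18, 18, 4), (19, 19, 0)])
def f12 : Stp := (1, [9, 1, 10, 5, 12, 2, 11, 6, 13, 3, 0, 7, 4, 14, 8],
  [(16, 0, 0), (17, 0, 0), (18, 0, 0), (19, 0, 0)])
def f13 : Stp := (1, [14, 3, 10, 7, 11, 4, 12, 8, 13, 1, 0, 5, 2, 9, 6],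
  [(16, 3, 4), (16, 6, 11), (16, 8, 15), (16, 10, 13), (16, 16, 14), (17, 17, 5), (18, 18, 12), (19, 19, 1)])
def f14 : Stp := (0, [0, 6, 7, 5, 8, 2, 3, 1, 4, 11, 9, 10, 13, 14, 12],
  [(16, 0, 6), (16, 1, 14), (16, 3, 9), (16, 5, 12), (16, 16, 10), (17, 17, 15), (18, 18, 8), (19, 19, 13)])
theorem ok0 : okS3 16 20 15 CQ LT LF f0 p0 = true := by decide +kernel
theorem ok1 : okS3 16 20 15 CQ LT LF f1 p1 = true := by decide +kernel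
theorem ok2 : okS3 16 20 15 CQ LT LF f2 p2 = true := by decide +kernel
theorem ok3 : okS3 16 20 15 CQ LT LF f3 p3 = true := by decide +kernel
theorem ok4 : okS3 16 20 15 CQ LT LF f4 p4 = true := by decide +kernel
theorem ok5 : okS3 16 20 15 CQ LT LF f5 p5 = true := by decide +kernel
theorem ok6 : okS3 16 20 15 CQ LT LF f6 p6 = true := by decide +kernel
theorem ok7 : okS3 16 20 15 CQ LT LF f7 p7 = true := by decide +kernel
theorem ok8 : okS3 16 20 15 CQ LT LF f8 p8 = true := by decide +kernel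
theorem ok9 : okS3 16 20 15 CQ LT LF f9 p9 = true := by decide +kernel
theorem ok10 : okS3 16 20 15 CQ LT LF f10 p10 = true := by decide +kernel
theorem ok11 : okS3 16 20 15 CQ LT LF f11 p11 = true := by decide +kernel
theorem ok12 : okS3 16 20 15 CQ LT LF f12 p12 = true := by decide +kernel
theorem ok13 : okS3 16 20 15 CQ LT LF f13 p13 = true := by decide +kernel
theorem ok14 : okS3 16 20 15 CQ LT LF f14 p14 = true := by decide +kernel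

/-- steps with permutations -/
def SP : List (Stp × Perm (Fin 7)) := [(f0, p0), (f1, p1), (f2, p2), (f3, p3), (f4, p4), (f5, p5), (f6, p6), (f7, p7), (f8, p8), (f9, p9), (f10, p10), (f11, p11), (f12, p12), (f13, p13), (f14, p14)]

theorem SP_fst : SP.map Prod.fst = fl3 GS := rfl
theorem SP_ok : ∀ x ∈ SP, okS3 16 20 15 CQ LT LF x.1 x.2 = true := by
  simp only [SP, List.forall_mem_cons, List.not_mem_nil, false_implies, implies_true, and_true]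
  exact ⟨ok0, ok1, ok2, ok3, ok4, ok5, ok6, ok7, ok8, ok9, ok10, ok11, ok12, ok13, ok14⟩

/-- all permutations of the sum -/
def PL : List (Perm (Fin 7)) := SP.flatMap fun x => if x.1.1 = 0 then [x.2 * al0] else [x.2 * al0, x.2]

theorem PL_len : PL.length = 21 := by decide +kernel
theorem PL_nodup : (PL.map pr).Nodup := by decide +kernel

end

end Pool.Agent.Run7.h583.K64
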