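import Pool.Agent.Run7.h583.K64.Ker

/-! Kernel computation. -/

set_option autoImplicit false
set_option maxRecDepth 100000
set_option maxHeartbeats 4000000

namespace Pool.Agent.Run7.h583.K64

theorem kk0 : chk 0 = true ∧ chk 1 = true ∧ chk 3 = true ∧ chk 7 = true ∧ chk 15 = true ∧ chk 31 = true ∧ chk 35 = true ∧ chk 36 = true ∧ chk 37 = true :=
  ⟨by decide +kernel, by decide +kernel, by decide +kernel, by decide +kernel, by decide +kernel, by decide +kernel, by decide +kernel, by decide +kernel, by decide +kernel⟩

end Pool.Agent.Run7.h583.K64
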