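import Pool.Agent.Run7.h583.K64.Ker

/-! Kernel computation. -/

set_option autoImplicit false
set_option maxRecDepth 100000
set_option maxHeartbeats 4000000

namespace Pool.Agent.Run7.h583.K64

theorem kk15 : chk 4094 = true ∧ chk 4095 = true ∧ chk 6108 = true ∧ chk 6109 = true ∧ chk 6111 = true ∧ chk 6143 = true ∧ chk 6654 = true ∧ chk 6655 = true ∧ chk 7071 = true :=
  ⟨by decide +kernel, by decide +kernel, by decide +kernel, by decide +kernel, by decide +kernel, by decide +kernel, by decide +kernel, by decide +kernel, by decide +kernel⟩

end Pool.Agent.Run7.h583.K64
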