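import Pool.Agent.Run7.h583.K64.Ker

/-! Kernel computation. -/

set_option autoImplicit false
set_option maxRecDepth 100000
set_option maxHeartbeats 4000000

namespace Pool.Agent.Run7.h583.K64

theorem kk16 : chk 7100 = true ∧ chk 7101 = true ∧ chk 7103 = true ∧ chk 7166 = true ∧ chk 7167 = true ∧ chk 8157 = true ∧ chk 8159 = true ∧ chk 8191 = true ∧ chk 15870 = true :=
  ⟨by decide +kernel, by decide +kernel, by decide +kernel, by decide +kernel, by decide +kernel, by decide +kernel, by decide +kernel, by decide +kernel, by decide +kernel⟩

end Pool.Agent.Run7.h583.K64
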