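import Pool.Agent.Run7.h583.K64.Ker

/-! Kernel computation. -/

set_option autoImplicit false
set_option maxRecDepth 100000
set_option maxHeartbeats 4000000

namespace Pool.Agent.Run7.h583.K64

theorem kk2 : chk 106 = true ∧ chk 107 = true ∧ chk 110 = true ∧ chk 111 = true ∧ chk 120 = true ∧ chk 121 = true ∧ chk 122 = true ∧ chk 123 = true ∧ chk 126 = true :=
  ⟨by decide +kernel, by decide +kernel, by decide +kernel, by decide +kernel, by decide +kernel, by decide +kernel, by decide +kernel, by decide +kernel, by decide +kernel⟩

end Pool.Agent.Run7.h583.K64
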