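import Pool.Agent.Run7.h583.K64.Ker

/-! Kernel computation. -/

set_option autoImplicit false
set_option maxRecDepth 100000
set_option maxHeartbeats 4000000

namespace Pool.Agent.Run7.h583.K64

theorem kk8 : chk 767 = true ∧ chk 920 = true ∧ chk 921 = true ∧ chk 922 = true ∧ chk 923 = true ∧ chk 926 = true ∧ chk 927 = true ∧ chk 954 = true ∧ chk 955 = true :=
  ⟨by decide +kernel, by decide +kernel, by decide +kernel, by decide +kernel, by decide +kernel, by decide +kernel, by decide +kernel, by decide +kernel, by decide +kernel⟩

end Pool.Agent.Run7.h583.K64
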