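import Pool.Agent.Run7.h583.K64.K0
import Pool.Agent.Run7.h583.K64.K1
import Pool.Agent.Run7.h583.K64.K2
import Pool.Agent.Run7.h583.K64.K3
import Pool.Agent.Run7.h583.K64.K4
import Pool.Agent.Run7.h583.K64.K5
import Pool.Agent.Run7.h583.K64.K6
import Pool.Agent.Run7.h583.K64.K7
import Pool.Agent.Run7.h583.K64.K8
import Pool.Agent.Run7.h583.K64.K9
import Pool.Agent.Run7.h583.K64.K10
import Pool.Agent.Run7.h583.K64.K11
import Pool.Agent.Run7.h583.K64.K12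
import Pool.Agent.Run7.h583.K64.K13
import Pool.Agent.Run7.h583.K64.K14
import Pool.Agent.Run7.h583.K64.K15
import Pool.Agent.Run7.h583.K64.K16
import Pool.Agent.Run7.h583.K64.K17

/-! All kernel computations. -/

set_option autoImplicit false
set_option maxRecDepth 100000

namespace Pool.Agent.Run7.h583.K64

/-- the codes of representatives -/
def reps : List ℕ := [0, 1, 3, 7, 15, 31, 35, 36, 37, 39, 44, 45, 47, 60, 61, 63, 102, 103, 106, 107, 110, 111, 120, 121, 122, 123, 126, 127, 238, 239, 246, 247, 254, 255, 510, 511, 615, 616, 617, 619, 623, 632, 633, 635, 639, 655, 656, 657, 659, 662, 663, 671, 684, 685, 687, 691, 692, 693, 694, 695, 700, 701, 703, 750, 751, 758, 759, 760, 761, 762, 763, 766, 767, 920, 921, 922, 923, 926, 927, 954, 955, 956, 957, 958, 959, 1022, 1023, 1743, 1749, 1751, 1759, 1775, 1780, 1781, 1783, 1788, 1789, 1791, 1880, 1881, 1883, 1884,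 1885, 1887, 1915, 1916, 1917, 1919, 2012, 2013, 2014, 2015, 2046, 2047, 3823, 3824, 3825, 3827, 3831, 3839, 3857, 3859, 3863, 3871, 3893, 3895, 3900, 3901, 3902, 3903, 3959, 3962, 3963, 3966, 3967, 4094, 4095, 6108, 6109, 6111, 6143, 6654, 6655, 7071, 7100, 7101, 7103, 7166, 7167, 8157, 8159, 8191, 15870, 15871, 16383]

theorem k_all : ∀ c ∈ reps, chk c = true := by
  intro c hc
  simp only [reps, List.mem_cons, List.not_mem_nil, or_false] at hc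
  rcases hc with rfl | rfl | rfl | rfl | rfl | rfl | rfl | rfl | rfl | rfl | rfl | rfl | rfl | rfl | rfl | rfl | rfl | rfl | rfl | rfl | rfl | rfl | rfl | rfl | rfl | rfl | rfl | rfl | rfl | rfl | rfl | rfl | rfl | rfl | rfl | rfl | rfl | rfl | rfl | rfl | rfl | rfl | rfl | rfl | rfl | rfl | rfl | rfl | rfl | rfl | rfl | rfl | rfl | rfl | rfl | rfl | rfl | rfl | rfl | rfl | rfl | rfl | rfl | rfl | rfl | rfl | rfl | rfl | rfl | rfl | rfl | rfl | rfl | rfl | rfl | rfl | rfl | rfl | rfl | rfl | rfl | rfl | rfl | rfl | rfl | rfl | rfl | rfl | rfl | rfl | rfl | rfl | rfl | rfl | rfl | rfl | rfl | rfl | rfl | rfl | rfl | rfl | rfl | rfl | rfl | rfl | rfl | rfl | rfl | rfl | rfl | rfl | rfl | rfl | rfl | rfl | rfl | rfl | rfl | rfl | rfl | rfl | rfl | rfl | rfl | rfl | rfl | rfl | rfl | rfl | rfl | rfl | rfl | rfl | rfl | rfl | rfl | rfl | rfl | rfl | rfl | rfl | rfl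 | rfl | rfl | rfl | rfl | rfl | rfl | rfl | rfl | rfl | rfl | rfl | rfl
  · exact kk0.1
  · exact kk0.2.1
  · exact kk0.2.2.1
  · exact kk0.2.2.2.1
  · exact kk0.2.2.2.2.1
  · exact kk0.2.2.2.2.2.1
  · exact kk0.2.2.2.2.2.2.1
  · exact kk0.2.2.2.2.2.2.2.1
  · exact kk0.2.2.2.2.2.2.2.2
  · exact kk1.1
  · exact kk1.2.1
  · exact kk1.2.2.1
  · exact kk1.2.2.2.1
  · exact kk1.2.2.2.2.1
  · exact kk1.2.2.2.2.2.1
  · exact kk1.2.2.2.2.2.2.1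
  · exact kk1.2.2.2.2.2.2.2.1
  · exact kk1.2.2.2.2.2.2.2.2
  · exact kk2.1
  · exact kk2.2.1
  · exact kk2.2.2.1
  · exact kk2.2.2.2.1
  · exact kk2.2.2.2.2.1
  · exact kk2.2.2.2.2.2.1
  · exact kk2.2.2.2.2.2.2.1
  · exact kk2.2.2.2.2.2.2.2.1
  · exact kk2.2.2.2.2.2.2.2.2
  · exact kk3.1
  · exact kk3.2.1
  · exact kk3.2.2.1
  · exact kk3.2.2.2.1
  · exact kk3.2.2.2.2.1
  · exact kk3.2.2.2.2.2.1
  · exact kk3.2.2.2.2.2.2.1
  · exact kk3.2.2.2.2.2.2.2.1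
  · exact kk3.2.2.2.2.2.2.2.2
  · exact kk4.1
  · exact kk4.2.1
  · exact kk4.2.2.1
  · exact kk4.2.2.2.1
  · exact kk4.2.2.2.2.1
  · exact kk4.2.2.2.2.2.1
  · exact kk4.2.2.2.2.2.2.1
  · exact kk4.2.2.2.2.2.2.2.1
  · exact kk4.2.2.2.2.2.2.2.2
  · exact kk5.1
  · exact kk5.2.1
  · exact kk5.2.2.1
  · exact kk5.2.2.2.1
  · exact kk5.2.2.2.2.1
  · exact kk5.2.2.2.2.2.1
  · exact kk5.2.2.2.2.2.2.1
  · exact kk5.2.2.2.2.2.2.2.1
  · exact kk5.2.2.2.2.2.2.2.2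
  · exact kk6.1
  · exact kk6.2.1
  · exact kk6.2.2.1
  · exact kk6.2.2.2.1
  · exact kk6.2.2.2.2.1
  · exact kk6.2.2.2.2.2.1
  · exact kk6.2.2.2.2.2.2.1
  · exact kk6.2.2.2.2.2.2.2.1
  · exact kk6.2.2.2.2.2.2.2.2
  · exact kk7.1
  · exact kk7.2.1
  · exact kk7.2.2.1
  · exact kk7.2.2.2.1
  · exact kk7.2.2.2.2.1
  · exact kk7.2.2.2.2.2.1
  · exact kk7.2.2.2.2.2.2.1
  · exact kk7.2.2.2.2.2.2.2.1
  · exact kk7.2.2.2.2.2.2.2.2
  · exact kk8.1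
  · exact kk8.2.1
  · exact kk8.2.2.1
  · exact kk8.2.2.2.1
  · exact kk8.2.2.2.2.1
  · exact kk8.2.2.2.2.2.1
  · exact kk8.2.2.2.2.2.2.1
  · exact kk8.2.2.2.2.2.2.2.1
  · exact kk8.2.2.2.2.2.2.2.2
  · exact kk9.1
  · exact kk9.2.1
  · exact kk9.2.2.1
  · exact kk9.2.2.2.1
  · exact kk9.2.2.2.2.1
  · exact kk9.2.2.2.2.2.1
  · exact kk9.2.2.2.2.2.2.1
  · exact kk9.2.2.2.2.2.2.2.1
  · exact kk9.2.2.2.2.2.2.2.2
  · exact kk10.1
  · exact kk10.2.1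
  · exact kk10.2.2.1
  · exact kk10.2.2.2.1
  · exact kk10.2.2.2.2.1
  · exact kk10.2.2.2.2.2.1
  · exact kk10.2.2.2.2.2.2.1
  · exact kk10.2.2.2.2.2.2.2.1
  · exact kk10.2.2.2.2.2.2.2.2
  · exact kk11.1
  · exact kk11.2.1
  · exact kk11.2.2.1
  · exact kk11.2.2.2.1
  · exact kk11.2.2.2.2.1
  · exact kk11.2.2.2.2.2.1
  · exact kk11.2.2.2.2.2.2.1
  · exact kk11.2.2.2.2.2.2.2.1
  · exact kk11.2.2.2.2.2.2.2.2
  · exact kk12.1
  · exact kk12.2.1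
  · exact kk12.2.2.1
  · exact kk12.2.2.2.1
  · exact kk12.2.2.2.2.1
  · exact kk12.2.2.2.2.2.1
  · exact kk12.2.2.2.2.2.2.1
  · exact kk12.2.2.2.2.2.2.2.1
  · exact kk12.2.2.2.2.2.2.2.2
  · exact kk13.1
  · exact kk13.2.1
  · exact kk13.2.2.1
  · exact kk13.2.2.2.1
  · exact kk13.2.2.2.2.1
  · exact kk13.2.2.2.2.2.1
  · exact kk13.2.2.2.2.2.2.1
  · exact kk13.2.2.2.2.2.2.2.1
  · exact kk13.2.2.2.2.2.2.2.2
  · exact kk14.1
  · exact kk14.2.1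
  · exact kk14.2.2.1
  · exact kk14.2.2.2.1
  · exact kk14.2.2.2.2.1
  · exact kk14.2.2.2.2.2.1
  · exact kk14.2.2.2.2.2.2.1
  · exact kk14.2.2.2.2.2.2.2.1
  · exact kk14.2.2.2.2.2.2.2.2
  · exact kk15.1
  · exact kk15.2.1
  · exact kk15.2.2.1
  · exact kk15.2.2.2.1
  · exact kk15.2.2.2.2.1
  · exact kk15.2.2.2.2.2.1
  · exact kk15.2.2.2.2.2.2.1
  · exact kk15.2.2.2.2.2.2.2.1
  · exact kk15.2.2.2.2.2.2.2.2
  · exact kk16.1
  · exact kk16.2.1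
  · exact kk16.2.2.1
  · exact kk16.2.2.2.1
  · exact kk16.2.2.2.2.1
  · exact kk16.2.2.2.2.2.1
  · exact kk16.2.2.2.2.2.2.1
  · exact kk16.2.2.2.2.2.2.2.1
  · exact kk16.2.2.2.2.2.2.2.2
  · exact kk17.1
  · exact kk17.2

end Pool.Agent.Run7.h583.K64
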