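import Pool.Agent.Run7.h583.K64.D0
import Pool.Agent.Run7.h583.K64.D1
import Pool.Agent.Run7.h583.K64.D2
import Pool.Agent.Run7.h583.K64.D3
import Pool.Agent.Run7.h583.K64.D4
import Pool.Agent.Run7.h583.K64.D5

/-! The table. -/

set_option autoImplicit false

namespace Pool.Agent.Run7.h583.K64

open Pool.Agent.Y435.T7 (Tr)

noncomputable section

/-- blocks of the table: type `t`, block `j` at the address `t + 8 j` -/
def DT : Tr := (.n (.n (.n (.n (.n (.n (.n (.l d0_0) (.l d0_8)) (.n (.l d0_4) (.l d0_12))) (.n (.n (.l d0_2) (.l d0_10)) (.n (.l d0_6) (.l d0_14)))) (.n (.n (.n (.l d0_1) (.l d0_9)) (.n (.l d0_5) (.l d0_13))) (.n (.n (.l d0_3) (.l d0_11)) (.n (.l d0_7) (.l d0_15))))) (.n (.n (.n (.n (.l d4_0) (.l d4_8)) (.n (.l d4_4) (.l d4_12))) (.n (.n (.l d4_2) (.l d4_10)) (.n (.l d4_6) (.l d4_14)))) (.n (.n (.n (.l d4_1) (.l d4_9)) (.n (.l d4_5) (.l d4_13))) (.n (.n (.l d4_3) (.l d4_11)) (.n (.l d4_7) (.l d4_15)))))) (.n (.n (.n (.n (.n (.l d2_0) (.l d2_8))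 (.n (.l d2_4) (.l d2_12))) (.n (.n (.l d2_2) (.l d2_10)) (.n (.l d2_6) (.l d2_14)))) (.n (.n (.n (.l d2_1) (.l d2_9)) (.n (.l d2_5) (.l d2_13))) (.n (.n (.l d2_3) (.l d2_11)) (.n (.l d2_7) (.l d2_15))))) (.l 0))) (.n (.n (.n (.n (.n (.n (.l d1_0) (.l d1_8)) (.n (.l d1_4) (.l d1_12))) (.n (.n (.l d1_2) (.l d1_10)) (.n (.l d1_6) (.l d1_14)))) (.n (.n (.n (.l d1_1) (.l d1_9)) (.n (.l d1_5) (.l d1_13))) (.n (.n (.l d1_3) (.l d1_11)) (.n (.l d1_7) (.l d1_15))))) (.n (.n (.n (.n (.l d5_0) (.l d5_8)) (.n (.l d5_4) (.l d5_12))) (.n (.n (.l d5_2) (.l d5_10)) (.n (.l d5_6) (.l d5_14)))) (.n (.n (.n (.l d5_1) (.l d5_9)) (.n (.l d5_5) (.l d5_13))) (.n (.n (.l d5_3) (.l d5_11)) (.n (.l d5_7) (.l d5_15)))))) (.n (.n (.n (.n (.n (.l d3_0) (.l d3_8)) (.n (.l d3_4) (.l d3_12))) (.n (.n (.l d3_2) (.l d3_10)) (.n (.l d3_6) (.l d3_14)))) (.n (.n (.n (.l d3_1) (.l d3_9)) (.n (.l d3_5) (.l d3_13))) (.n (.n (.l d3_3) (.l d3_11)) (.n (.l d3_7) (.l d3_15))))) (.l 0))))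

/-- for every mask, the exchanges of index bits -/
def SLn : ℕ := 494249569803444960527854147450502547553689971520045948401066188181518586200801854911996363223209855148835216028659670414999609303896644981160071838153650680211636819569768061828505733503837929378172438975458225136505064709576749135542731027617319458673034396454107636781200447277465727116871417031671256166033896807051128602482022125353805420673242465804292478317842753586888415465050051229981262281252462755576740615107732801622312191262720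
/-- for every mask, the number of columns -/
def NKn : ℕ := 19969168497457695831352884051426861043351610491897770966801513700136134772240
/-- for every mask, its type -/
def TYn : ℕ := 112004398439102515831086157106144944400
/-- the bound -/
def cC : ℕ := 193223879805

end

end Pool.Agent.Run7.h583.K64
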